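import Pool.Agent.W2helper53.KH.Small

/-!
# (k-1,k)-homogeneous groups are (k-2,k-1)-homogeneous for `k ≤ 5`, without classification

If `G` is `(k-1,k)`-homogeneous and not `(k-2,k-1)`-homogeneous, let `A` be a `(k-2)`-set and `B` a
`(k-1)`-set which contains no image of `A`. Let `H` consist of the images of `A`. Every `k`-set
contains a member of `H` (extend `A` by a point) and an image of `B`, so all members of `H` in a
`k`-set have a common point. Such set systems do not exist on `n ≥ 2 k` points if `k ≤ 5`. For
`k = 3`, `4` this is easy. For `k = 5` it is enough to look at ten points: if two triples of `H` have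
two common points, and if no two triples have two common points, refutations by unit propagation
are checked by the kernel.
-/

set_option autoImplicit false

namespace Pool.Agent.Results.MP_078193_al.SmallDegrees

open Pool.Agent.W2helper53.KH

/-- `G` is `(k-1,k)`-homogeneous: for all sets `A`, `B` with `k-1` and `k` elements some element of
`G` maps `A` into `B` -/
def IsHom {n : ℕ} (G : Subgroup (Equiv.Perm (Fin n))) (k : ℕ) : Prop :=
  ∀ A B : Finset (Fin n), A.card + 1 = k → B.card = k → ∃ g ∈ G, A.image g ⊆ B

theorem good_of {n k : ℕ} (hk : 2 ≤ k) (hn : k ≤ n) {G : Subgroup (Equiv.Perm (Fin n))}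
    (h : IsHom G k) {A B : Finset (Fin n)} (hA : A.card + 2 = k) (hB : B.card + 1 = k)
    (hAB : ∀ g ∈ G, ¬ A.image g ⊆ B) :
    Good k (fun S : Finset (Fin n) => ∃ g ∈ G, S = A.image g) where
  card := by
    rintro S ⟨g, -, rfl⟩
    rw [Finset.card_image_of_injective _ g.injective]
    exact hA
  pos := by
    intro C hC
    have h1 : A.card + 1 ≤ Fintype.card (Fin n) := by rw [Fintype.card_fin]; omega
    obtain ⟨D, hAD, hD⟩ := Finset.exists_superset_card_eq (s := A) (n := A.card + 1) (by omega)
      (by simpa using h1)
    obtain ⟨g, hg, hgD⟩ := h D C (by omega) hC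
    exact ⟨A.image g, (Finset.image_subset_image hAD).trans hgD, g, hg, rfl⟩
  neg := by
    intro C hC
    obtain ⟨g, hg, hgB⟩ := h B C hB hC
    have hcard : (B.image g).card < C.card := by
      rw [Finset.card_image_of_injective _ g.injective]
      omega
    obtain ⟨y, hy, hyB⟩ := Finset.exists_mem_notMem_of_card_lt_card hcard
    refine ⟨y, hy, ?_⟩
    rintro S hS hyS ⟨g', hg', rfl⟩
    -- `C = B g ∪ {y}`
    have hC' : C = insert y (B.image g) := by
      symm
      refine Finset.eq_of_subset_of_card_le ?_ ?_
      · intro z hz
        rcases Finset.mem_insert.1 hz with rfl | hz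
        · exact hy
        · exact hgB hz
      · rw [Finset.card_insert_of_notMem hyB, Finset.card_image_of_injective _ g.injective]
        omega
    have h2 : A.image g' ⊆ B.image g := by
      intro z hz
      have hz' := hS hz
      rw [hC', Finset.mem_insert] at hz'
      rcases hz' with rfl | hz'
      · exact absurd hz hyS
      · exact hz'
    refine hAB (g⁻¹ * g') (G.mul_mem (G.inv_mem hg) hg') ?_
    intro z hz
    obtain ⟨a, ha, rfl⟩ := Finset.mem_image.1 hz
    obtain ⟨b, hb, hb'⟩ := Finset.mem_image.1 (h2 (Finset.mem_image_of_mem _ ha))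
    have h3 : (g⁻¹ * g') a = b := by
      rw [Equiv.Perm.mul_apply, ← hb']
      exact g.symm_apply_apply b
    rw [h3]
    exact hb

/-- For `2 ≤ k ≤ 5` and `n ≥ 2k`, every `(k-1,k)`-homogeneous group of permutations of `n` points
is `(k-2,k-1)`-homogeneous. -/
theorem result (n k : ℕ) (hk : 2 ≤ k) (hk5 : k ≤ 5) (hn : 2 * k ≤ n)
    (G : Subgroup (Equiv.Perm (Fin n))) (h : IsHom G k) : IsHom G (k - 1) := by
  intro A B hA hB
  by_contra hcon
  push Not at hcon
  have hG := good_of hk (by omega) h (A := A) (B := B) (by omega) (by omega) hcon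
  have hc : Fintype.card (Fin n) = n := Fintype.card_fin n
  interval_cases k
  · -- `k = 2`
    have hA0 : A = ∅ := Finset.card_eq_zero.1 (by omega)
    exact hcon 1 G.one_mem (by rw [hA0]; simp)
  · exact no3 hG (by omega)
  · exact no4 hG (by omega)
  · exact no5 hG (by omega)

end Pool.Agent.Results.MP_078193_al.SmallDegrees
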